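import Mathlib

namespace Pool.Agent.Results.MP_b215e8_pr.NotHaar
open MeasureTheory ProbabilityTheory
open scoped ENNReal

/-- arrival time of seed `i`: the sum of the first `i + 1` gaps -/
def tau {S : Type} (ω : ℕ → ℝ × S) (i : ℕ) : ℝ := ∑ j ∈ Finset.range (i + 1), (ω j).1

/-- the cover time of the growth process with gaps `(ω i).1` and seeds `(ω i).2` -/
noncomputable def cover {S : Type} [MetricSpace S] (v : ℝ) (ω : ℕ → ℝ × S) : ℝ :=
  sInf {t | 0 ≤ t ∧ ∀ s, ∃ i, tau ω i ≤ t ∧ dist (ω i).2 s ≤ v * (t - tau ω i)}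

/-- i.i.d. exponential gaps and independent i.i.d. seeds of law `μ` -/
noncomputable def law {S : Type} [MeasurableSpace S] (l : ℝ) (μ : Measure S) :
    Measure (ℕ → ℝ × S) :=
  Measure.infinitePi fun _ => (expMeasure l).prod μ

/-- `E_μ C` -/
noncomputable def mean {S : Type} [MetricSpace S] [MeasurableSpace S] (l v : ℝ) (μ : Measure S) :
    ℝ≥0∞ :=
  ∫⁻ ω, ENNReal.ofReal (cover v ω) ∂law l μ

def K : Type := Multiplicative (ZMod 4)

instance : Group K := inferInstanceAs (Group (Multiplicative (ZMod 4)))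
instance : Fintype K := inferInstanceAs (Fintype (Multiplicative (ZMod 4)))
instance : DecidableEq K := inferInstanceAs (DecidableEq (Multiplicative (ZMod 4)))

def a : K := Multiplicative.ofAdd (2 : ZMod 4)

def dn (x y : K) : ℕ := if x = y then 0 else if y = x * a then 9 else 8

noncomputable instance : MetricSpace K where
  dist x y := (dn x y : ℝ) / 8
  dist_self x := by simp [dn]
  dist_comm x y := by rw [show dn x y = dn y x by revert x y; decide]
  dist_triangle x y z := by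
    have : dn x z ≤ dn x y + dn y z := by revert x y z; decide
    have : (dn x z : ℝ) ≤ dn x y + dn y z := by exact_mod_cast this
    linarith
  eq_of_dist_eq_zero {x y} h := by
    have h1 : (dn x y : ℝ) = 0 := by linarith
    have h2 : dn x y = 0 := by exact_mod_cast h1
    revert h2; clear h h1; revert x y; decide

lemma dist_eq (x y : K) : dist x y = (dn x y : ℝ) / 8 := rfl

instance : IsTopologicalGroup K where
  continuous_mul := continuous_of_discreteTopology
  continuous_inv := continuous_of_discreteTopology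

instance : MeasurableSpace K := ⊤
instance : BorelSpace K := ⟨(borel_eq_top_of_discrete).symm⟩

lemma dist_le (x y : K) : dist x y ≤ 9 / 8 := by
  have : dn x y ≤ 9 := by revert x y; decide
  have : (dn x y : ℝ) ≤ 9 := by exact_mod_cast this
  rw [dist_eq]; linarith

lemma dist_le' {x y : K} (h : y ≠ x * a) : dist x y ≤ 1 := by
  have : dn x y ≤ 8 := by revert x y; decide
  have : (dn x y : ℝ) ≤ 8 := by exact_mod_cast this
  rw [dist_eq]; linarith

lemma dist_ge {x y : K} (h : x ≠ y) : 1 ≤ dist x y := by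
  have : 8 ≤ dn x y := by revert x y; decide
  have : (8 : ℝ) ≤ dn x y := by exact_mod_cast this
  rw [dist_eq]; linarith

lemma dist_a (x : K) : dist x (x * a) = 9 / 8 := by
  rw [dist_eq, show dn x (x * a) = 9 by revert x; decide]; norm_num

def Ea (x : ℝ) : Set (ℕ → ℝ × K) := {ω | (ω 1).2 = (ω 0).2 * a ∧ (ω 1).1 ≤ x}
def Eb : Set (ℕ → ℝ × K) := {ω | (ω 1).1 ≤ 1 / 8}
def Ec : Set (ℕ → ℝ × K) := {ω | (ω 1).1 ≤ 9 / 8 ∧ (ω 2).1 ≤ 9 / 8}

lemma top_mem (ω : ℕ → ℝ × K) (h : ∀ j, 0 ≤ (ω j).1) :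
    (ω 0).1 + 9 / 8 ∈ {t | 0 ≤ t ∧ ∀ s, ∃ i, tau ω i ≤ t ∧ dist (ω i).2 s ≤ 1 * (t - tau ω i)} :=
  ⟨by linarith [h 0], fun s => ⟨0, by simp [tau]; norm_num, by simpa [tau] using dist_le _ _⟩⟩

lemma upper (ω : ℕ → ℝ × K) (h : ∀ j, 0 ≤ (ω j).1) :
    cover 1 ω + (Ea 1).indicator (fun _ => 1 / 8) ω ≤ (ω 0).1 + 9 / 8 := by
  by_cases hE : ω ∈ Ea 1
  · have : cover 1 ω ≤ (ω 0).1 + 1 := by
      refine csInf_le ⟨0, fun t ht => ht.1⟩ ⟨by linarith [h 0], fun s => ?_⟩
      by_cases hs : s = (ω 0).2 * a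
      · refine ⟨1, by simpa [tau, Finset.sum_range_succ] using hE.2, ?_⟩
        rw [hs, ← hE.1]
        simpa [tau, Finset.sum_range_succ] using hE.2
      · exact ⟨0, by simp [tau], by simpa [tau] using dist_le' hs⟩
    rw [Set.indicator_of_mem hE]
    linarith
  · rw [Set.indicator_of_notMem hE, add_zero]
    exact csInf_le ⟨0, fun t ht => ht.1⟩ (top_mem ω h)

lemma lower (ω : ℕ → ℝ × K) (h : ∀ j, 0 ≤ (ω j).1) :
    (ω 0).1 + 9 / 8 ≤ cover 1 ω + (Ea (9 / 8) ∪ Eb).indicator (fun _ => 1 / 8) ω +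
      Ec.indicator (fun _ => 9 / 8) ω := by
  rw [add_assoc, ← sub_le_iff_le_add]
  refine le_csInf ⟨_, top_mem ω h⟩ fun t ht => ?_
  have hm : ∀ i j, i ≤ j → tau ω i ≤ tau ω j := fun i j hij =>
    Finset.sum_le_sum_of_subset_of_nonneg (Finset.range_mono (by omega)) fun k _ _ => h k
  have t0 : tau ω 0 = (ω 0).1 := by simp [tau]
  have t1 : tau ω 1 = (ω 0).1 + (ω 1).1 := by simp [tau, Finset.sum_range_succ]
  have t2 : tau ω 2 = (ω 0).1 + (ω 1).1 + (ω 2).1 := by simp [tau, Finset.sum_range_succ]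
  have i1 : 0 ≤ (Ea (9 / 8) ∪ Eb).indicator (fun _ => (1 / 8 : ℝ)) ω :=
    Set.indicator_nonneg (fun _ _ => by norm_num) _
  by_cases hc : ω ∈ Ec
  · obtain ⟨i, hi, -⟩ := ht.2 1
    rw [Set.indicator_of_mem hc]
    linarith [hm 0 i (Nat.zero_le _)]
  rw [Set.indicator_of_notMem hc]
  by_contra hlt
  have h2 : (ω 0).1 + 9 / 8 < tau ω 2 := by
    simp only [Ec, Set.mem_ofPred_eq, not_and_or, not_le] at hc
    rcases hc with hc | hc <;> linarith [h 1, h 2]
  have key : ∀ s, dist (ω 0).2 s ≤ t - (ω 0).1 ∨ dist (ω 1).2 s ≤ t - ((ω 0).1 + (ω 1).1) := by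
    intro s
    obtain ⟨i, hi, hd⟩ := ht.2 s
    rcases i with _ | _ | i
    · left; simpa [t0] using hd
    · right; simpa [t1] using hd
    · linarith [hm 2 (i + 1 + 1) (by omega)]
  by_cases hE : ω ∈ Ea (9 / 8) ∪ Eb
  · rw [Set.indicator_of_mem hE] at hlt
    obtain ⟨s, h0, h1⟩ : ∃ s, (ω 0).2 ≠ s ∧ (ω 1).2 ≠ s := by
      generalize (ω 0).2 = x; generalize (ω 1).2 = y; revert x y; decide
    rcases key s with h3 | h3
    · linarith [dist_ge h0]
    · linarith [dist_ge h1, h 1]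
  · rw [Set.indicator_of_notMem hE] at hlt
    rcases key ((ω 0).2 * a) with h3 | h3
    · linarith [dist_a (ω 0).2]
    · by_cases h4 : (ω 1).2 = (ω 0).2 * a
      · exact hE (.inl ⟨h4, by linarith [dist_nonneg (x := (ω 1).2) (y := (ω 0).2 * a)]⟩)
      · exact hE (.inr (show (ω 1).1 ≤ 1 / 8 by linarith [dist_ge h4]))

instance : IsProbabilityMeasure (expMeasure (1 / 200)) :=
  isProbabilityMeasure_expMeasure (by norm_num)

lemma exp_Iic {x : ℝ} (hx : 0 ≤ x) :
    (expMeasure (1 / 200)).real (Set.Iic x) = 1 - Real.exp (-(1 / 200 * x)) := by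
  rw [← cdf_eq_real, cdf_expMeasure_eq (by norm_num), if_pos hx]

variable (μ : Measure K) [IsProbabilityMeasure μ]

instance : IsProbabilityMeasure (law (1 / 200) μ) := by unfold law; infer_instance

lemma box {i j : ℕ} (hij : i ≠ j) {A B : Set ℝ} (hA : MeasurableSet A) (hB : MeasurableSet B)
    (C D : Set K) : (law (1 / 200) μ).real {ω | ω i ∈ A ×ˢ C ∧ ω j ∈ B ×ˢ D} =
      (expMeasure (1 / 200)).real A * μ.real C * ((expMeasure (1 / 200)).real B * μ.real D) := by
  have h1 := Measure.infinitePi_map_eval_prod (P := fun _ : ℕ => (expMeasure (1 / 200)).prod μ) hij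
  have hm : MeasurableSet ((A ×ˢ C) ×ˢ (B ×ˢ D)) :=
    (hA.prod MeasurableSpace.measurableSet_top).prod (hB.prod MeasurableSpace.measurableSet_top)
  have h2 := congrArg (fun ν => ν.real ((A ×ˢ C) ×ˢ (B ×ˢ D))) h1
  simp only [measureReal_prod_prod] at h2
  rw [← h2, map_measureReal_apply (by fun_prop) hm]
  rfl

lemma Ea_eq (x : ℝ) : Ea x = ⋃ s : K, {ω | ω 0 ∈ Set.univ ×ˢ {s} ∧ ω 1 ∈ Set.Iic x ×ˢ {s * a}} := by
  ext ω
  simp [Ea, and_comm]

lemma mbox (x : ℝ) (s : K) :
    MeasurableSet {ω : ℕ → ℝ × K | ω 0 ∈ Set.univ ×ˢ {s} ∧ ω 1 ∈ Set.Iic x ×ˢ {s * a}} :=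
  MeasurableSet.inter (s₁ := (fun ω : ℕ → ℝ × K => ω 0) ⁻¹' (Set.univ ×ˢ {s}))
    (s₂ := (fun ω : ℕ → ℝ × K => ω 1) ⁻¹' (Set.Iic x ×ˢ {s * a}))
    (measurable_pi_apply 0 (MeasurableSet.univ.prod (measurableSet_singleton _)))
    (measurable_pi_apply 1 (measurableSet_Iic.prod (measurableSet_singleton _)))

lemma mEa (x : ℝ) : MeasurableSet (Ea x) := by
  rw [Ea_eq]; exact MeasurableSet.iUnion (mbox x)

lemma pEa (x : ℝ) : (law (1 / 200) μ).real (Ea x) =
    (expMeasure (1 / 200)).real (Set.Iic x) * ∑ s, μ.real {s} * μ.real {s * a} := by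
  rw [Ea_eq, measureReal_iUnion_fintype _ (mbox x), Finset.mul_sum]
  · refine Finset.sum_congr rfl fun s _ => ?_
    rw [box μ (by norm_num) MeasurableSet.univ measurableSet_Iic]
    simp only [probReal_univ]
    ring
  · intro s s' hs
    rw [Function.onFun, Set.disjoint_left]
    rintro ω ⟨⟨-, h1⟩, -⟩ ⟨⟨-, h2⟩, -⟩
    exact hs (h1.symm.trans h2)

lemma mEb : MeasurableSet Eb := measurableSet_le (by fun_prop) measurable_const
lemma mEc : MeasurableSet Ec :=
  MeasurableSet.inter (s₁ := {ω : ℕ → ℝ × K | (ω 1).1 ≤ 9 / 8})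
    (s₂ := {ω : ℕ → ℝ × K | (ω 2).1 ≤ 9 / 8}) (measurableSet_le (by fun_prop) measurable_const)
    (measurableSet_le (by fun_prop) measurable_const)

lemma pEb : (law (1 / 200) μ).real Eb = (expMeasure (1 / 200)).real (Set.Iic (1 / 8)) := by
  have := box μ (i := 0) (j := 1) (by norm_num) MeasurableSet.univ
    (measurableSet_Iic (a := (1 / 8 : ℝ))) Set.univ Set.univ
  simp only [probReal_univ, one_mul, mul_one] at this
  rw [← this]; congr 1; ext ω; simp [Eb]

lemma pEc : (law (1 / 200) μ).real Ec = (expMeasure (1 / 200)).real (Set.Iic (9 / 8)) ^ 2 := by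
  have := box μ (i := 1) (j := 2) (by norm_num) (measurableSet_Iic (a := (9 / 8 : ℝ)))
    (measurableSet_Iic (a := (9 / 8 : ℝ))) Set.univ Set.univ
  simpa [Ec, sq] using this

lemma ae_pos : ∀ᵐ ω ∂law (1 / 200) μ, ∀ j, 0 ≤ (ω j).1 := by
  rw [ae_all_iff]
  intro j
  have h1 := box μ (i := j) (j := j + 1) (by omega) (measurableSet_Iic (a := (0 : ℝ)))
    MeasurableSet.univ Set.univ Set.univ
  rw [exp_Iic le_rfl] at h1
  simp only [mul_zero, neg_zero, Real.exp_zero, sub_self, zero_mul] at h1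
  refine measure_mono_null (fun ω hω => ?_)
    ((measureReal_eq_zero_iff (measure_ne_top _ _)).1 h1)
  simpa using (not_le.1 (show ¬ 0 ≤ (ω j).1 from hω)).le

noncomputable def I0 : ℝ≥0∞ := ∫⁻ x, ENNReal.ofReal (x + 9 / 8) ∂expMeasure (1 / 200)

lemma I0_eq : ∫⁻ ω, ENNReal.ofReal ((ω 0).1 + 9 / 8) ∂law (1 / 200) μ = I0 :=
  ((measurePreserving_fst (μ := expMeasure (1 / 200)) (ν := μ)).comp
    (measurePreserving_eval_infinitePi (fun _ : ℕ => (expMeasure (1 / 200)).prod μ) 0)).lintegral_comp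
    (f := fun x => ENNReal.ofReal (x + 9 / 8)) (by fun_prop)

lemma I0_ne : I0 ≠ ∞ := by
  rw [I0, expMeasure, gammaMeasure, lintegral_withDensity_eq_lintegral_mul _
    (by unfold gammaPDF; fun_prop) (by fun_prop)]
  refine ne_top_of_le_ne_top (b := ∫⁻ x, 1000 * exponentialPDF (1 / 400) x) ?_
    (lintegral_mono fun x => ?_)
  · rw [lintegral_const_mul' _ _ (by norm_num), lintegral_exponentialPDF_eq_one (by norm_num)]
    norm_num
  · change exponentialPDF (1 / 200) x * _ ≤ _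
    rcases lt_or_ge x 0 with hx | hx
    · simp [exponentialPDF_of_neg hx]
    · rw [exponentialPDF_of_nonneg hx, exponentialPDF_of_nonneg hx,
        ← ENNReal.ofReal_mul (by positivity), ← ENNReal.ofReal_ofNat 1000,
        ← ENNReal.ofReal_mul (by positivity)]
      refine ENNReal.ofReal_le_ofReal ?_
      have e : Real.exp (-(1 / 400 * x)) = Real.exp (-(1 / 200 * x)) * Real.exp (1 / 400 * x) := by
        rw [← Real.exp_add]; ring_nf
      have := Real.add_one_le_exp (1 / 400 * x)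
      rw [e]
      nlinarith [Real.exp_pos (-(1 / 200 * x))]

lemma ind_int {E : Set (ℕ → ℝ × K)} (hE : MeasurableSet E) {c : ℝ} (hc : 0 ≤ c) :
    ∫⁻ ω, ENNReal.ofReal (E.indicator (fun _ => c) ω) ∂law (1 / 200) μ =
      ENNReal.ofReal (c * (law (1 / 200) μ).real E) := by
  rw [ENNReal.ofReal_mul hc, ofReal_measureReal, ← lintegral_indicator_const hE]
  refine lintegral_congr fun ω => ?_
  by_cases h : ω ∈ E <;> simp [h]

lemma cover_nonneg (ω : ℕ → ℝ × K) : 0 ≤ cover 1 ω := Real.sInf_nonneg fun _ ht => ht.1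

lemma mean_upper : mean (1 / 200) 1 μ + ENNReal.ofReal (1 / 8 * (law (1 / 200) μ).real (Ea 1)) ≤
    I0 := by
  rw [← ind_int μ (mEa 1) (by norm_num), mean, ← lintegral_add_right _
    ((measurable_const.indicator (mEa 1)).ennreal_ofReal), ← I0_eq μ]
  refine lintegral_mono_ae ((ae_pos μ).mono fun ω h => ?_)
  rw [← ENNReal.ofReal_add (cover_nonneg ω) (Set.indicator_nonneg (fun _ _ => by norm_num) _)]
  exact ENNReal.ofReal_le_ofReal (upper ω h)

lemma mean_lower : I0 ≤ mean (1 / 200) 1 μ +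
    ENNReal.ofReal (1 / 8 * (law (1 / 200) μ).real (Ea (9 / 8) ∪ Eb)) +
      ENNReal.ofReal (9 / 8 * (law (1 / 200) μ).real Ec) := by
  rw [← ind_int μ ((mEa _).union mEb) (by norm_num), ← ind_int μ mEc (by norm_num), mean,
    ← lintegral_add_right _ ((measurable_const.indicator ((mEa _).union mEb)).ennreal_ofReal),
    ← lintegral_add_right _ ((measurable_const.indicator mEc).ennreal_ofReal), ← I0_eq μ]
  refine lintegral_mono_ae ((ae_pos μ).mono fun ω h => ?_)
  exact (ENNReal.ofReal_le_ofReal (lower ω h)).trans (ENNReal.ofReal_add_le.trans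
    (add_le_add_left ENNReal.ofReal_add_le _))

noncomputable def m0 : Measure K := (4⁻¹ : ℝ≥0∞) • Measure.count
noncomputable def μ0 : Measure K := (2⁻¹ : ℝ≥0∞) • (Measure.dirac 1 + Measure.dirac a)

instance : IsProbabilityMeasure m0 := ⟨by
  simp [m0, show Fintype.card K = 4 from rfl, ENNReal.inv_mul_cancel]⟩
instance : IsProbabilityMeasure μ0 := ⟨by simp [μ0, ENNReal.inv_two_add_inv_two]⟩

theorem result : ¬ ∀ (S : Type) [Group S] [MetricSpace S] [CompactSpace S] [IsTopologicalGroup S]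
    [MeasurableSpace S] [BorelSpace S], (∀ g x y : S, dist (g * x) (g * y) = dist x y) →
    ∀ (m μ : Measure S) [IsProbabilityMeasure m] [m.IsHaarMeasure] [IsProbabilityMeasure μ]
      (l v : ℝ), 0 < l → 0 < v → mean l v m ≤ mean l v μ := by
  intro h
  have hm : ∀ s, m0.real {s} = 1 / 4 := fun s => by simp [m0, Measure.real]
  have hH : m0.IsHaarMeasure :=
    { toIsMulLeftInvariant := by unfold m0; infer_instance
      open_pos := fun U _ ⟨s, hs⟩ h0 => by
        have := hm s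
        rw [Measure.real, measure_mono_null (Set.singleton_subset_iff.2 hs) h0] at this
        norm_num at this }
  have h1 := h K (fun g x y => by
    rw [dist_eq, dist_eq, show dn (g * x) (g * y) = dn x y by revert g x y; decide])
    m0 μ0 (1 / 200) 1 (by norm_num) one_pos
  have h2 := mean_upper μ0
  have h3 := (mean_lower m0).trans (add_le_add_left (add_le_add_left h1 _) _)
  have h4 := h2.trans h3
  rw [add_assoc, ENNReal.add_le_add_iff_left (ne_top_of_le_ne_top I0_ne (le_self_add.trans h2)),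
    ← ENNReal.ofReal_add (by positivity) (by positivity),
    ENNReal.ofReal_le_ofReal_iff (by positivity), pEa, pEc] at h4
  have h5 := measureReal_union_le (μ := law (1 / 200) m0) (Ea (9 / 8)) Eb
  rw [pEa, pEb] at h5
  have h6 : ∑ s, m0.real {s} * m0.real {s * a} = 1 / 4 := by
    simp only [hm, Finset.sum_const, Finset.card_univ, show Fintype.card K = 4 from rfl]
    norm_num
  have h7 : 1 / 2 ≤ ∑ s, μ0.real {s} * μ0.real {s * a} := by
    have e1 : μ0.real {1} = 1 / 2 := by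
      simp [μ0, Measure.real, show a ≠ 1 by decide]
    have e2 : μ0.real {a} = 1 / 2 := by
      simp [μ0, Measure.real, show 1 ≠ a by decide]
    refine le_trans ?_ (Finset.sum_le_sum_of_subset_of_nonneg
      (Finset.subset_univ {1, a}) fun _ _ _ => by positivity)
    rw [Finset.sum_pair (by decide), one_mul, show a * a = 1 by decide, e1, e2]
    norm_num
  rw [h6, exp_Iic (by norm_num), exp_Iic (by norm_num)] at h5
  rw [exp_Iic (by norm_num), exp_Iic (by norm_num)] at h4
  have b1 := Real.add_one_le_exp (-(1 / 200 * (9 / 8) : ℝ))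
  have b2 := Real.add_one_le_exp (-(1 / 200 * (1 / 8) : ℝ))
  have b3 : Real.exp (-(1 / 200 * 1 : ℝ)) ≤ 200 / 201 := by
    rw [Real.exp_neg, inv_le_comm₀ (Real.exp_pos _) (by norm_num)]
    linarith [Real.add_one_le_exp (1 / 200 * 1 : ℝ)]
  have b4 : Real.exp (-(1 / 200 * (9 / 8) : ℝ)) ≤ 1 := Real.exp_le_one_iff.2 (by norm_num)
  nlinarith

end Pool.Agent.Results.MP_b215e8_pr.NotHaar
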